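import Pool.Agent.Lib.MP_15f43f_co.Od.Defs

/-! Coordinates seen from the defender and the part of the invariant common to all phases. -/

set_option autoImplicit false

namespace Pool.Agent.Lib.MP_15f43f_co.Od

theorem not_win (p0 : Pos) (d : Color) (I : Pos → Prop) (h0 : I p0)
    (hw : ∀ p, I p → p.turn = d → ∃ q, Legal p q ∧ I q)
    (hb : ∀ p q, I p → p.turn = d.opp → Legal p q → I q) : ¬ WinFrom p0 d.opp := by
  rintro ⟨σ, hσ, h⟩
  have k : ∀ (l : List Pos) (p : Pos), ∃ q, (I p → I q) ∧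
      ((∃ q, Legal p q) → Legal p q ∧ (p.turn = d.opp → q = σ (l ++ [p]))) ∧
      ((¬ ∃ q, Legal p q) → q = p) := fun l p => by
    by_cases L : ∃ q, Legal p q
    · by_cases e : p.turn = d.opp
      · exact ⟨_, fun i => hb p _ i e (hσ l p e L), fun _ => ⟨hσ l p e L, fun _ => rfl⟩,
          fun n => (n L).elim⟩
      · have e' : p.turn = d := by
          revert e
          cases p.turn <;> cases d <;> simp [Color.opp]
        by_cases i : I p
        · obtain ⟨q, a, b⟩ := hw p i e'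
          exact ⟨q, fun _ => b, fun _ => ⟨a, fun x => (e x).elim⟩, fun n => (n L).elim⟩
        · obtain ⟨q, a⟩ := id L
          exact ⟨q, fun j => (i j).elim, fun _ => ⟨a, fun x => (e x).elim⟩, fun n => (n L).elim⟩
    · exact ⟨p, id, fun n => (L n).elim, fun _ => rfl⟩
  choose st k1 k2 k3 using k
  obtain ⟨s, s0, s1⟩ : ∃ s : ℕ → List Pos × Pos, s 0 = ([], p0) ∧
      ∀ n, s (n + 1) = ((s n).1 ++ [(s n).2], st (s n).1 (s n).2) :=
    ⟨fun n => n.rec ([], p0) fun _ x => (x.1 ++ [x.2], st x.1 x.2), rfl, fun _ => rfl⟩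
  have e : ∀ n, (s n).1 = (List.range n).map fun n => (s n).2 := fun n => by
    induction n with
    | zero => rw [s0]; rfl
    | succ n ih => rw [s1, List.range_succ, List.map_append, ← ih]; rfl
  have i : ∀ n, I (s n).2 := fun n => by
    induction n with
    | zero => rwa [s0]
    | succ n ih => rw [s1]; exact k1 _ _ ih
  obtain ⟨n, a, -, b⟩ := h (fun n => (s n).2) ⟨congrArg Prod.snd s0, fun n => by
    rw [← e]
    dsimp only
    rw [s1]
    exact ⟨k2 _ _, k3 _ _⟩⟩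
  have a' : (s n).2.turn = d := by
    rw [a]
    cases d <;> rfl
  exact b ((hw _ (i n) a').imp fun _ => And.left)

def F (s : Sq) : ℤ := ((s.1 : ℕ) : ℤ)

def R (d : Color) (s : Sq) : ℤ :=
  match d with
  | .white => ((s.2 : ℕ) : ℤ)
  | .black => 7 - ((s.2 : ℕ) : ℤ)

theorem F_bd (s : Sq) : 0 ≤ F s ∧ F s < 8 := by
  have := s.1.2
  unfold F
  omega

theorem R_bd (d : Color) (s : Sq) : 0 ≤ R d s ∧ R d s < 8 := by
  have := s.2.2
  cases d <;> simp only [R] <;> omega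

theorem sq_ext (d : Color) {s t : Sq} (h1 : F s = F t) (h2 : R d s = R d t) : s = t := by
  refine Prod.ext (Fin.ext ?_) (Fin.ext ?_)
  · unfold F at h1
    omega
  · cases d <;> simp only [R] at h2 <;> omega

theorem ex_sq (d : Color) (f r : ℕ) (hf : f < 8) (hr : r < 8) :
    ∃ s : Sq, F s = f ∧ R d s = r := by
  cases d
  · exact ⟨(⟨f, hf⟩, ⟨r, hr⟩), rfl, rfl⟩
  · exact ⟨(⟨f, hf⟩, ⟨7 - r, by omega⟩), rfl, by simp only [R]; omega⟩

theorem off_iff (d : Color) (s t : Sq) (a b : ℤ) :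
    Off s t a b ↔ F t = F s + a ∧ R d t = R d s + fwd d * b := by
  cases d <;> simp only [Off, F, R, fwd] <;> omega

theorem fwd_cases (d : Color) : (fwd d = 1 ∧ fwd d.opp = -1) ∨ (fwd d = -1 ∧ fwd d.opp = 1) := by
  cases d
  · exact .inl ⟨rfl, rfl⟩
  · exact .inr ⟨rfl, rfl⟩

theorem opp_ne (d : Color) : d.opp ≠ d := by cases d <;> simp [Color.opp]

theorem good_iff (t : Sq) : GoodFile t ↔ F t % 2 = 0 := by
  unfold GoodFile F
  omega

theorem put_t (β : Board) (s t : Sq) (c : Color) (k : Kind) : put β s t c k t = some (c, k) := by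
  simp [put]

theorem put_s (β : Board) {s t : Sq} (c : Color) (k : Kind) (h : s ≠ t) :
    put β s t c k s = none := by
  simp [put, Function.update_of_ne h]

theorem put_o (β : Board) {s t u : Sq} (c : Color) (k : Kind) (h : u ≠ s) (h' : u ≠ t) :
    put β s t c k u = β u := by
  simp [put, Function.update_of_ne h, Function.update_of_ne h']

theorem put_some {β : Board} {s t u : Sq} {c : Color} {k : Kind} {x : Color × Kind}
    (h : put β s t c k u = some x) : (u = t ∧ x = (c, k)) ∨ (u ≠ t ∧ u ≠ s ∧ β u = some x) := by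
  by_cases e : u = t
  · rw [e, put_t] at h
    exact .inl ⟨e, (Option.some.inj h).symm⟩
  · by_cases e' : u = s
    · rw [e', put_s _ _ _ (e' ▸ e)] at h
      cases h
    · rw [put_o _ _ _ e' e] at h
      exact .inr ⟨e, e', h⟩

def At (d : Color) (β : Board) (f r : ℤ) (o : Option (Color × Kind)) : Prop :=
  ∀ s, F s = f → R d s = r → β s = o

def No (d : Color) (β : Board) (k : Kind) : Prop := ∀ s, β s ≠ some (d.opp, k)

structure Base (d : Color) (β : Board) (nb : ℤ) : Prop where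
  odd : ∀ s, F s % 2 = 1 → β s = none
  c2 : At d β 2 1 (some (d, .pawn))
  g2 : At d β 6 1 (some (d, .pawn))
  cls : ∀ s k, β s = some (d.opp, k) → k = .king ∨
    (k = .pawn ∧ 2 ≤ R d s ∧ (F s % 4 = 0 → 4 ≤ R d s)) ∨
    (k = .bishop ∧ (F s + R d s) % 4 = 1) ∨
    (k = .knight ∧ (F s / 2 + R d s) % 2 = 0 ∧ nb ≤ R d s)
  kg : ∃ u, β u = some (d.opp, .pawn) ∧ F u = 4 ∧
    ∀ s, β s = some (d.opp, .king) → F s = 4 ∧ R d u < R d s
  uN : ∀ s t, β s = some (d.opp, .knight) → β t = some (d.opp, .knight) → s = t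
  uB : ∀ s t, β s = some (d.opp, .bishop) → β t = some (d.opp, .bishop) → s = t
  own : ∀ t, β t = some (d, .king) → F t = 4 ∧ (R d t = 0 ∨ (R d t = 1 ∧ No d β .bishop))

/-- what a move of the attacker from `s` to `t` looks like -/
def Mv (d : Color) (β : Board) (nb : ℤ) (s t : Sq) (k : Kind) : Prop :=
  β s = some (d.opp, k) ∧ (∀ k', β t ≠ some (d.opp, k')) ∧ F t % 2 = 0 ∧
    ((k = .king ∧ F t = 4 ∧ F s = 4 ∧ 5 ≤ R d t ∧ R d s ≤ R d t + 1) ∨
     (k = .bishop ∧ (F t + R d t) % 4 = 1 ∧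
       (F t - F s = R d t - R d s ∨ F t - F s = R d s - R d t)) ∨
     (k = .knight ∧ (F t / 2 + R d t) % 2 = 0 ∧ nb - 1 ≤ R d t) ∨
     (k = .pawn ∧ β t = none ∧ F t = F s ∧ (R d t = R d s - 1 ∨ (R d s = 6 ∧ R d t = 4))))

theorem Base.pm {d : Color} {β : Board} {nb : ℤ} (h : Base d β nb) {k : Kind} {s t : Sq}
    (m : PieceMove β d.opp k s t) : Mv d β nb s t k ∧ k ≠ .pawn := by
  obtain ⟨m1, m2, m3, m4⟩ := m
  rw [good_iff] at m2
  have hs : F s % 2 = 0 := by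
    by_contra e
    rw [h.odd s (by omega)] at m1
    cases m1
  have b1 := F_bd s
  have b2 := F_bd t
  rcases h.cls s k m1 with rfl | ⟨rfl, -⟩ | ⟨rfl, c⟩ | ⟨rfl, c1, c2⟩
  · obtain ⟨a, b, o, e⟩ := m3
    rw [off_iff d] at o
    obtain ⟨u, u1, u2, u3⟩ := h.kg
    obtain ⟨v1, v2⟩ := u3 s m1
    have a1 : |a| ≤ 1 := e ▸ le_max_left _ _
    have a2 : |b| ≤ 1 := e ▸ le_max_right _ _
    rw [abs_le] at a1 a2
    have w : 4 ≤ R d u := by
      rcases h.cls u _ u1 with c | ⟨-, -, c⟩ | ⟨c, -⟩ | ⟨c, -⟩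
      · cases c
      · exact c (by omega)
      · cases c
      · cases c
    have ne : R d t ≠ R d u := fun e' => m4 .pawn (by rw [sq_ext d (s := t) (t := u) (by omega) e']; exact u1)
    refine ⟨⟨m1, m4, m2, .inl ⟨rfl, by omega, v1, ?_, ?_⟩⟩, nofun⟩ <;>
      rcases fwd_cases d with ⟨e1, -⟩ | ⟨e1, -⟩ <;> rw [e1] at o <;> omega
  · exact m3.elim
  · refine ⟨⟨m1, m4, m2, .inr (.inl ⟨rfl, ?_⟩)⟩, nofun⟩
    rcases m3 with ⟨n, -, o, -⟩ | ⟨n, -, o, -⟩ | ⟨n, -, o, -⟩ | ⟨n, -, o, -⟩ <;>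
      rw [off_iff d] at o <;> rcases fwd_cases d with ⟨e1, -⟩ | ⟨e1, -⟩ <;> rw [e1] at o <;> omega
  · refine ⟨⟨m1, m4, m2, .inr (.inr (.inl ⟨rfl, ?_⟩))⟩, nofun⟩
    obtain ⟨a, b, o, e⟩ := m3
    rw [off_iff d] at o
    rw [abs_eq (by norm_num), abs_eq (by norm_num), abs_eq (by norm_num), abs_eq (by norm_num)] at e
    rcases fwd_cases d with ⟨e1, -⟩ | ⟨e1, -⟩ <;> rw [e1] at o <;> omega

theorem Base.safe {d : Color} {β : Board} {nb : ℤ} (h : Base d β nb) (hn : 2 ≤ nb) :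
    ¬ InCheck β d := by
  rintro ⟨k, s, t, m, e⟩
  obtain ⟨⟨m1, -, -, m2⟩, m3⟩ := h.pm m
  obtain ⟨o1, o2⟩ := h.own t e
  rcases m2 with ⟨-, c⟩ | ⟨rfl, c, -⟩ | ⟨-, c⟩ | ⟨c, -⟩
  · omega
  · rcases o2 with o | ⟨-, o⟩
    · omega
    · exact o s m1
  · omega
  · exact m3 c

theorem Base.am {d : Color} {β β' : Board} {nb : ℤ} (h : Base d β nb)
    (m : Pseudo β d.opp β') : ∃ s t k, β' = put β s t d.opp k ∧ Mv d β nb s t k := by
  have key : ∀ s t, PawnMove β d.opp s t → Mv d β nb s t .pawn ∧ t.2 ≠ lastRank d.opp := by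
    rintro s t ⟨m1, m2, m3, m4⟩
    rw [good_iff] at m2
    have w : 2 ≤ R d s := by
      rcases h.cls s _ m1 with c | ⟨-, c, -⟩ | ⟨c, -⟩ | ⟨c, -⟩
      · cases c
      · exact c
      · cases c
      · cases c
    have k : F t = F s ∧ (R d t = R d s - 1 ∨ (R d s = 6 ∧ R d t = 4)) := by
      rcases m4 with o | ⟨o1, o, -⟩
      · rw [off_iff d] at o
        rcases fwd_cases d with ⟨e1, e2⟩ | ⟨e1, e2⟩ <;> rw [e1, e2] at o <;> omega
      · rw [off_iff d] at o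
        have : R d s = 6 := by
          cases d <;> simp [R, o1, startRank, Color.opp]
        rcases fwd_cases d with ⟨e1, e2⟩ | ⟨e1, e2⟩ <;> rw [e1, e2] at o <;> omega
    refine ⟨⟨m1, fun k' e => (by rw [m3] at e; cases e), m2, .inr (.inr (.inr ⟨rfl, m3, k⟩))⟩,
      fun e => ?_⟩
    have : R d t = 0 := by
      cases d <;> simp [R, e, lastRank, Color.opp]
    omega
  rcases m with ⟨k, s, t, m, e⟩ | ⟨s, t, m, -, e⟩ | ⟨s, t, k, m, e, -⟩
  · exact ⟨s, t, k, e, (h.pm m).1⟩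
  · exact ⟨s, t, _, e, (key s t m).1⟩
  · exact ((key s t m).2 e).elim

end Pool.Agent.Lib.MP_15f43f_co.Od
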