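import Pool.Agent.Lib.MP_15f43f_co.Game

/-! The game from the initial position with some rooks taken off. -/

set_option autoImplicit false

namespace Pool.Agent.Lib.MP_15f43f_co.Od

/-- The initial position; the white rook stays iff `w`, the black rook stays iff `b`. -/
def start (w b : Bool) : Pos :=
  ⟨fun s => if (s = (0, 0) ∧ w = false) ∨ (s = (0, 7) ∧ b = false) then none else initBoard s,
    .white⟩

/-- A play from `p0` in which `c` follows `σ`; a finished play stays at its last position. -/
def PlayFrom (p0 : Pos) (c : Color) (σ : List Pos → Pos) (p : ℕ → Pos) : Prop :=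
  p 0 = p0 ∧ ∀ n,
    ((∃ q, Legal (p n) q) → Legal (p n) (p (n + 1)) ∧
      ((p n).turn = c → p (n + 1) = σ ((List.range (n + 1)).map p))) ∧
    ((¬ ∃ q, Legal (p n) q) → p (n + 1) = p n)

def WinFrom (p0 : Pos) (c : Color) : Prop :=
  ∃ σ, IsStrategy c σ ∧ ∀ p, PlayFrom p0 c σ p → ∃ n, (p n).turn = c.opp ∧ Checkmated (p n)

end Pool.Agent.Lib.MP_15f43f_co.Od
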