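import Pool.Agent.Lib.MP_15f43f_co.Od.Base

/-! The common invariant after a move of either side, and the moves of the defender. -/

set_option autoImplicit false

namespace Pool.Agent.Lib.MP_15f43f_co.Od

variable {d : Color} {β : Board} {nb : ℤ} {s t : Sq} {k : Kind}

theorem At.put {f r : ℤ} {o : Option (Color × Kind)} (h : At d β f r o) (c : Color) (k : Kind)
    (h1 : ¬ (F s = f ∧ R d s = r)) (h2 : ¬ (F t = f ∧ R d t = r)) :
    At d (put β s t c k) f r o := fun u a b => by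
  have n1 : u ≠ s := fun e => h1 (e ▸ ⟨a, b⟩)
  have n2 : u ≠ t := fun e => h2 (e ▸ ⟨a, b⟩)
  rw [put_o _ _ _ n1 n2]
  exact h u a b

theorem At.putA {f r : ℤ} {o : Option (Color × Kind)} (h : At d β f r o)
    (ho : o = none ∨ ∃ k', o = some (d, k')) (m : β s = some (d.opp, k))
    (h2 : ¬ (F t = f ∧ R d t = r)) : At d (Pool.Agent.Lib.MP_15f43f_co.put β s t d.opp k) f r o := by
  refine h.put _ _ (fun e => ?_) h2
  rw [h s e.1 e.2] at m
  rcases ho with rfl | ⟨k', rfl⟩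
  · cases m
  · exact opp_ne d (congrArg Prod.fst (Option.some.inj m)).symm

theorem at_t (β : Board) (s : Sq) (c : Color) (k : Kind) {f r : ℤ} (h1 : F t = f)
    (h2 : R d t = r) : At d (put β s t c k) f r (some (c, k)) := fun u a b => by
  rw [sq_ext d (a.trans h1.symm) (b.trans h2.symm), put_t]

theorem at_s (β : Board) (c : Color) (k : Kind) {f r : ℤ} (h1 : F s = f)
    (h2 : R d s = r) (h : ¬ (F t = f ∧ R d t = r)) : At d (put β s t c k) f r none :=
  fun u a b => by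
  have n : s ≠ t := fun e => h (e ▸ ⟨h1, h2⟩)
  rw [sq_ext d (a.trans h1.symm) (b.trans h2.symm), put_s _ _ _ n]

theorem At.full {f r : ℤ} {x : Color × Kind} (h : At d β f r (some x)) (e : β t = none) :
    ¬ (F t = f ∧ R d t = r) := fun a => by
  rw [h t a.1 a.2] at e
  cases e

theorem No.putD {k' : Kind} (h : No d β k') : No d (put β s t d k) k' := fun u e => by
  rcases put_some e with ⟨-, c⟩ | ⟨-, -, c⟩
  · exact opp_ne d (congrArg Prod.fst c)
  · exact h u c

theorem No.putA {k' : Kind} (h : No d β k') (m : β s = some (d.opp, k)) :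
    No d (put β s t d.opp k) k' := fun u e => by
  rcases put_some e with ⟨-, c⟩ | ⟨-, -, c⟩
  · exact h s (c ▸ m)
  · exact h u c

theorem no_take {k' : Kind} (h : ∀ u, β u = some (d.opp, k') → u = t) :
    No d (put β s t d k) k' := fun u e => by
  rcases put_some e with ⟨-, c⟩ | ⟨n, -, c⟩
  · exact opp_ne d (congrArg Prod.fst c)
  · exact n (h u c)

/-- where the attacker can land -/
def Tg (d : Color) (β : Board) (nb : ℤ) (t : Sq) (k : Kind) : Prop :=
  (k = .king ∧ 5 ≤ R d t) ∨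
    (k = .pawn ∧ β t = none ∧ 2 ≤ R d t ∧ (F t % 4 = 0 → 4 ≤ R d t)) ∨
    (k = .bishop ∧ (F t + R d t) % 4 = 1) ∨
    (k = .knight ∧ (F t / 2 + R d t) % 2 = 0 ∧ nb - 1 ≤ R d t)

theorem Base.src (h : Base d β nb) (m : β s = some (d.opp, .pawn)) :
    2 ≤ R d s ∧ (F s % 4 = 0 → 4 ≤ R d s) := by
  rcases h.cls s _ m with c | ⟨-, c⟩ | ⟨c, -⟩ | ⟨c, -⟩
  · cases c
  · exact c
  · cases c
  · cases c

theorem Base.tg (h : Base d β nb) (m : Mv d β nb s t k)
    (hp : k = .pawn → β t = none → F t % 4 = 0 → R d t ≠ 3) : Tg d β nb t k := by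
  obtain ⟨m1, -, m3, m4⟩ := m
  rcases m4 with ⟨a, c⟩ | ⟨a, c, -⟩ | c | ⟨rfl, a, c⟩
  · exact .inl ⟨a, by omega⟩
  · exact .inr (.inr (.inl ⟨a, c⟩))
  · exact .inr (.inr (.inr c))
  · have b1 := F_bd t
    have b2 := h.src m1
    have b3 := h.c2.full a
    have b4 := h.g2.full a
    have b5 := hp rfl a
    exact .inr (.inl ⟨rfl, a, by omega, by omega⟩)

theorem Base.after (h : Base d β nb) (hn : 3 ≤ nb) (m : Mv d β nb s t k) (g : Tg d β nb t k) :
    Base d (put β s t d.opp k) (nb - 1) := by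
  obtain ⟨m1, m2, m3, m4⟩ := m
  have uq : ∀ k', (∀ u v, β u = some (d.opp, k') → β v = some (d.opp, k') → u = v) →
      ∀ u v, put β s t d.opp k u = some (d.opp, k') → put β s t d.opp k v = some (d.opp, k') →
        u = v := by
    intro k' H u v a b
    rcases put_some a with ⟨a1, a2⟩ | ⟨-, a2, a3⟩ <;> rcases put_some b with ⟨b1, b2⟩ | ⟨-, b2, b3⟩
    · rw [a1, b1]
    · exact (b2 (H v s b3 (a2 ▸ m1))).elim
    · exact (a2 (H u s a3 (b2 ▸ m1))).elim
    · exact H u v a3 b3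
  refine ⟨fun u e => ?_, h.c2.putA (.inr ⟨_, rfl⟩) m1 ?_, h.g2.putA (.inr ⟨_, rfl⟩) m1 ?_,
    fun u k' e => ?_, ?_, uq _ h.uN, uq _ h.uB, fun u e => ?_⟩
  · cases e' : put β s t d.opp k u with
    | none => rfl
    | some x =>
      rcases put_some e' with ⟨rfl, -⟩ | ⟨-, -, c⟩
      · omega
      · rw [h.odd u e] at c
        cases c
  · rcases g with ⟨-, g⟩ | ⟨-, -, g⟩ | ⟨-, g⟩ | ⟨-, g⟩ <;> omega
  · rcases g with ⟨-, g⟩ | ⟨-, -, g⟩ | ⟨-, g⟩ | ⟨-, g⟩ <;> omega
  · rcases put_some e with ⟨rfl, c⟩ | ⟨-, -, c⟩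
    · obtain rfl : k' = k := congrArg Prod.snd c
      rcases g with ⟨a, -⟩ | ⟨a, -, g⟩ | g | g
      · exact .inl a
      · exact .inr (.inl ⟨a, g⟩)
      · exact .inr (.inr (.inl g))
      · exact .inr (.inr (.inr g))
    · rcases h.cls u k' c with a | a | a | ⟨a, b, c⟩
      · exact .inl a
      · exact .inr (.inl a)
      · exact .inr (.inr (.inl a))
      · exact .inr (.inr (.inr ⟨a, b, by omega⟩))
  · obtain ⟨u, u1, u2, u3⟩ := h.kg
    by_cases e : u = s
    · subst e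
      obtain rfl : k = .pawn := (congrArg Prod.snd (Option.some.inj (u1.symm.trans m1))).symm
      rcases m4 with ⟨c, -⟩ | ⟨c, -⟩ | ⟨c, -⟩ | ⟨-, -, c⟩
      · cases c
      · cases c
      · cases c
      refine ⟨t, put_t _ _ _ _ _, by omega, fun v a => ?_⟩
      rcases put_some a with ⟨-, b⟩ | ⟨-, -, b⟩
      · cases b
      · have := u3 v b
        omega
    · have e' : u ≠ t := fun x => m2 .pawn (x ▸ u1)
      refine ⟨u, by rw [put_o _ _ _ e e']; exact u1, u2, fun v a => ?_⟩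
      rcases put_some a with ⟨rfl, b⟩ | ⟨-, -, b⟩
      · obtain rfl : Kind.king = k := congrArg Prod.snd b
        have := u3 s m1
        rcases m4 with ⟨-, c⟩ | ⟨c, -⟩ | ⟨c, -⟩ | ⟨c, -⟩
        · have : R d u ≠ R d v := fun x => e' (sq_ext d (by omega) x)
          omega
        · cases c
        · cases c
        · cases c
      · exact u3 v b
  · rcases put_some e with ⟨-, c⟩ | ⟨-, -, c⟩
    · exact (opp_ne d (congrArg Prod.fst c).symm).elim
    · exact (h.own u c).imp id (Or.imp id (And.imp id fun n => n.putA m1))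

theorem Base.dm (h : Base d β nb) {nb' : ℤ} (h1 : F t % 2 = 0) (h2 : R d t ≤ 3) (h2' : R d s ≤ 3)
    (h3 : R d s = 1 → F s % 4 = 0) (h4 : R d t = 1 → F t % 4 = 0)
    (hk : k = .king → F t = 4 ∧ (R d t = 0 ∨ (R d t = 1 ∧ No d (put β s t d k) .bishop)))
    (hn : ∀ u, β u = some (d.opp, .knight) → u ≠ t → nb' ≤ R d u) :
    Base d (put β s t d k) nb' := by
  have old : ∀ u k', put β s t d k u = some (d.opp, k') → u ≠ t ∧ β u = some (d.opp, k') := by
    intro u k' e
    rcases put_some e with ⟨-, c⟩ | ⟨a, -, c⟩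
    · exact (opp_ne d (congrArg Prod.fst c)).elim
    · exact ⟨a, c⟩
  refine ⟨fun u e => ?_, h.c2.put _ _ (by omega) (by omega), h.g2.put _ _ (by omega) (by omega),
    fun u k' e => ?_, ?_, fun u v a b => h.uN u v (old _ _ a).2 (old _ _ b).2,
    fun u v a b => h.uB u v (old _ _ a).2 (old _ _ b).2, fun u e => ?_⟩
  · cases e' : put β s t d k u with
    | none => rfl
    | some x =>
      rcases put_some e' with ⟨rfl, -⟩ | ⟨-, -, c⟩
      · omega
      · rw [h.odd u e] at c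
        cases c
  · obtain ⟨n, c⟩ := old _ _ e
    rcases h.cls u k' c with a | a | a | ⟨rfl, b, -⟩
    · exact .inl a
    · exact .inr (.inl a)
    · exact .inr (.inr (.inl a))
    · exact .inr (.inr (.inr ⟨rfl, b, hn u c n⟩))
  · obtain ⟨u, u1, u2, u3⟩ := h.kg
    have := h.src u1
    refine ⟨u, ?_, u2, fun v a => u3 v (old _ _ a).2⟩
    rw [put_o _ _ _ (by rintro rfl; omega) (by rintro rfl; omega)]
    exact u1
  · rcases put_some e with ⟨rfl, c⟩ | ⟨-, -, c⟩
    · exact hk (congrArg Prod.snd c).symm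
    · exact (h.own u c).imp id (Or.imp id (And.imp id fun n => n.putD))

theorem Base.kn (h : Base d β nb) {u : Sq} (e : β u = some (d.opp, .knight)) : nb ≤ R d u := by
  rcases h.cls u _ e with c | ⟨c, -⟩ | ⟨c, -⟩ | ⟨-, -, c⟩
  · cases c
  · cases c
  · cases c
  · exact c

theorem mvN (m : β s = some (d, .knight)) (h : ∀ k', β t ≠ some (d, k')) (g : F t % 2 = 0)
    (a : F t = F s + 2 ∨ F t = F s - 2) (b : R d t = R d s + 1 ∨ R d t = R d s - 1) :
    Pseudo β d (put β s t d .knight) := by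
  refine .inl ⟨_, s, t, ⟨m, (good_iff t).2 g, ⟨F t - F s, fwd d * (R d t - R d s), ?_, .inr ?_⟩, h⟩,
    rfl⟩
  · rw [off_iff d]
    rcases fwd_cases d with ⟨e, -⟩ | ⟨e, -⟩ <;> rw [e] <;> omega
  · rw [abs_eq (by norm_num), abs_eq (by norm_num)]
    rcases fwd_cases d with ⟨e, -⟩ | ⟨e, -⟩ <;> rw [e] <;> omega

theorem mvK (m : β s = some (d, .king)) (h : ∀ k', β t ≠ some (d, k')) (g : F t % 2 = 0)
    (a : F t = F s) (b : R d t = R d s + 1 ∨ R d t = R d s - 1) :
    Pseudo β d (put β s t d .king) := by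
  refine .inl ⟨_, s, t, ⟨m, (good_iff t).2 g, ⟨0, fwd d * (R d t - R d s), ?_, ?_⟩, h⟩, rfl⟩
  · rw [off_iff d]
    rcases fwd_cases d with ⟨e, -⟩ | ⟨e, -⟩ <;> rw [e] <;> omega
  · rcases fwd_cases d with ⟨e, -⟩ | ⟨e, -⟩ <;> rcases b with b | b <;> rw [e, b] <;> simp

theorem mvB (ho : ∀ s, F s % 2 = 1 → β s = none) (m : β s = some (d, .bishop))
    (h : ∀ k', β t ≠ some (d, k')) (g : F t % 2 = 0)
    (a : F t = F s + 2 ∨ F t = F s - 2) (b : R d t = R d s + 2 ∨ R d t = R d s - 2) :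
    Pseudo β d (put β s t d .bishop) := by
  have key : ∀ x y : ℤ, (x = 1 ∨ x = -1) → F t = F s + 2 * x → R d t = R d s + fwd d * (2 * y) →
      Slide β s t x y := by
    intro x y hx e1 e2
    refine ⟨2, by norm_num, (off_iff d _ _ _ _).2 ⟨by push_cast; exact e1, by push_cast; exact e2⟩,
      fun n n1 n2 u o => ho u ?_⟩
    obtain rfl : n = 1 := by omega
    have := ((off_iff d _ _ _ _).1 o).1
    omega
  refine .inl ⟨_, s, t, ⟨m, (good_iff t).2 g, ?_, h⟩, rfl⟩
  have p : R d t = R d s + fwd d * (2 * 1) ∨ R d t = R d s + fwd d * (2 * -1) := by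
    rcases fwd_cases d with ⟨e, -⟩ | ⟨e, -⟩ <;> rw [e] <;> omega
  rcases a with a | a <;> rcases p with p | p
  · exact .inl (key _ _ (.inl rfl) (by omega) p)
  · exact .inr (.inl (key _ _ (.inl rfl) (by omega) p))
  · exact .inr (.inr (.inl (key _ _ (.inr rfl) (by omega) p)))
  · exact .inr (.inr (.inr (key _ _ (.inr rfl) (by omega) p)))

theorem mvP (m : β s = some (d, .pawn)) (h : β t = none) (g : F t % 2 = 0) (a : F t = F s)
    (b : R d s = 1) (c : R d t = 3) (e : At d β (F s) 2 none) :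
    Pseudo β d (put β s t d .pawn) := by
  refine .inr (.inl ⟨s, t, ⟨m, (good_iff t).2 g, h, .inr ⟨?_, ?_, fun u o => ?_⟩⟩, ?_, rfl⟩)
  · cases d <;> simp only [R] at b <;> apply Fin.ext <;> simp only [startRank] <;> omega
  · rw [off_iff d]
    rcases fwd_cases d with ⟨e, -⟩ | ⟨e, -⟩ <;> rw [e] <;> omega
  · rw [off_iff d] at o
    refine e u (by omega) ?_
    rcases fwd_cases d with ⟨e, -⟩ | ⟨e, -⟩ <;> rw [e] at o <;> omega
  · intro x
    cases d <;> simp [R, x, lastRank] at c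

end Pool.Agent.Lib.MP_15f43f_co.Od
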